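import Mathlib
import Pool.Agent.H52.AL.Defs

/-!
# Collisions and Chebyshev for Bernoulli configurations in the grid (modules G and H of AL)
-/

set_option autoImplicit false

open Classical Finset

namespace Pool.Agent.H27.AL

open Pool.H52.AL

theorem card_grid (M : ℕ) : (grid M).card = M ^ 2 := by
  simp [grid, sq]

theorem wt_nonneg {q : ℝ} (hq0 : 0 ≤ q) (hq1 : q ≤ 1) (M : ℕ) (ω : Finset Cell) :
    0 ≤ q ^ ω.card * (1 - q) ^ (M ^ 2 - ω.card) :=
  mul_nonneg (pow_nonneg hq0 _) (pow_nonneg (by linarith) _)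

/-- union bound over a finite family -/
theorem Pr_union {ι : Type} (T : Finset ι) (q : ℝ) (hq0 : 0 ≤ q) (hq1 : q ≤ 1) (M : ℕ)
    (P : Finset Cell → Prop) (Q : ι → Finset Cell → Prop)
    (h : ∀ ω, ω ⊆ grid M → P ω → ∃ t ∈ T, Q t ω) :
    Pr q M P ≤ ∑ t ∈ T, Pr q M (Q t) := by
  unfold Pr
  simp only [Finset.sum_filter]
  rw [Finset.sum_comm]
  refine Finset.sum_le_sum fun ω hω => ?_
  have hω' : ω ⊆ grid M := Finset.mem_powerset.1 hω
  by_cases hP : P ω
  · rw [if_pos hP]
    obtain ⟨t, ht, hQ⟩ := h ω hω' hP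
    have h1 : (if Q t ω then q ^ ω.card * (1 - q) ^ (M ^ 2 - ω.card) else 0) ≤
        ∑ t ∈ T, if Q t ω then q ^ ω.card * (1 - q) ^ (M ^ 2 - ω.card) else 0 := by
      refine Finset.single_le_sum (f := fun t => if Q t ω then
        q ^ ω.card * (1 - q) ^ (M ^ 2 - ω.card) else 0) (fun i _ => ?_) ht
      split_ifs
      · exact wt_nonneg hq0 hq1 M ω
      · exact le_rfl
    rw [if_pos hQ] at h1
    exact h1
  · rw [if_neg hP]
    refine Finset.sum_nonneg fun i _ => ?_
    split_ifs
    · exact wt_nonneg hq0 hq1 M ω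
    · exact le_rfl

theorem Pr_superset (q : ℝ) (M : ℕ) (T : Finset Cell) (hT : T ⊆ grid M) :
    Pr q M (fun ω => T ⊆ ω) = q ^ T.card := by
  have key : Pr q M (fun ω => T ⊆ ω)
      = ∑ ω ∈ (grid M \ T).powerset, q ^ T.card * (q ^ ω.card *
          (1 - q) ^ ((grid M \ T).card - ω.card)) := by
    unfold Pr
    refine Finset.sum_nbij' (fun ω => ω \ T) (fun ω => T ∪ ω) ?_ ?_ ?_ ?_ ?_
    · intro ω hω
      simp only [Finset.mem_filter, Finset.mem_powerset] at hω ⊢
      exact Finset.sdiff_subset_sdiff hω.1 (le_refl _)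
    · intro ω hω
      simp only [Finset.mem_filter, Finset.mem_powerset] at hω ⊢
      exact ⟨Finset.union_subset hT (hω.trans Finset.sdiff_subset), Finset.subset_union_left⟩
    · intro ω hω
      simp only [Finset.mem_filter, Finset.mem_powerset] at hω
      exact Finset.union_sdiff_of_subset hω.2
    · intro ω hω
      simp only [Finset.mem_powerset] at hω
      rw [Finset.union_sdiff_left]
      refine Finset.sdiff_eq_self_of_disjoint ?_
      exact Finset.disjoint_left.2 fun a ha hb => (Finset.mem_sdiff.1 (hω ha)).2 hb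
    · intro ω hω
      simp only [Finset.mem_filter, Finset.mem_powerset] at hω
      have h1 : (ω \ T).card = ω.card - T.card := Finset.card_sdiff_of_subset hω.2
      have h2 : (grid M \ T).card = M ^ 2 - T.card := by
        rw [Finset.card_sdiff_of_subset hT, card_grid]
      have h3 : T.card ≤ ω.card := Finset.card_le_card hω.2
      have h4 : M ^ 2 - T.card - (ω.card - T.card) = M ^ 2 - ω.card := by omega
      rw [h1, h2, h4, ← mul_assoc, ← pow_add]
      congr 2
      omega
  rw [key, ← Finset.mul_sum, Finset.sum_pow_mul_eq_add_pow]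
  simp

theorem collision (q : ℝ) (hq0 : 0 ≤ q) (hq1 : q ≤ 1) (M : ℕ) :
    Pr q M (fun ω => ¬ NC ω) ≤ (M : ℝ) ^ 3 * q ^ 2 := by
  have h := Pr_union (range M ×ˢ (range M).offDiag) q hq0 hq1 M (fun ω => ¬ NC ω)
    (fun t ω => (if t.2.1 < t.2.2 then ({(t.1, t.2.1), (t.1, t.2.2)} : Finset Cell)
      else {(t.2.1, t.1), (t.2.2, t.1)}) ⊆ ω) ?_
  · refine h.trans ?_
    have h2 : ∀ t ∈ range M ×ˢ (range M).offDiag,
        Pr q M (fun ω => (if t.2.1 < t.2.2 then ({(t.1, t.2.1), (t.1, t.2.2)} : Finset Cell)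
      else {(t.2.1, t.1), (t.2.2, t.1)}) ⊆ ω) = q ^ 2 := by
      rintro ⟨i, a, b⟩ ht
      simp only [mem_product, mem_offDiag, mem_range] at ht
      obtain ⟨hi, ha, hb, hab⟩ := ht
      rw [Pr_superset]
      · congr 1
        dsimp only
        split_ifs with hlt
        · rw [Finset.card_pair]
          intro h
          exact hab (by simpa using congrArg Prod.snd h)
        · rw [Finset.card_pair]
          intro h
          exact hab (by simpa using congrArg Prod.fst h)
      · dsimp only
        split_ifs with hlt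
        · intro c hc
          simp only [mem_insert, mem_singleton] at hc
          rcases hc with rfl | rfl
          · simp [grid, hi, ha]
          · simp [grid, hi, hb]
        · intro c hc
          simp only [mem_insert, mem_singleton] at hc
          rcases hc with rfl | rfl
          · simp [grid, hi, ha]
          · simp [grid, hi, hb]
    rw [Finset.sum_congr rfl h2, Finset.sum_const, nsmul_eq_mul]
    refine mul_le_mul_of_nonneg_right ?_ (by positivity)
    have : (range M ×ˢ (range M).offDiag).card ≤ M ^ 3 := by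
      rw [card_product, offDiag_card, card_range]
      calc M * (M * M - M) ≤ M * (M * M) := Nat.mul_le_mul_left _ (Nat.sub_le _ _)
        _ = M ^ 3 := by ring
    exact_mod_cast this
  · intro ω hω hN
    simp only [NC, not_forall] at hN
    obtain ⟨p, hp, p', hp', hne, hcol⟩ := hN
    have hpM := hω hp
    have hpM' := hω hp'
    simp only [grid, mem_product, mem_range] at hpM hpM'
    obtain ⟨x, y⟩ := p
    obtain ⟨x', y'⟩ := p'
    simp only at hcol hpM hpM'
    rw [not_and_or, not_not, not_not] at hcol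
    rcases hcol with h1 | h1
    · subst h1
      have hyy : y ≠ y' := fun h => hne (by rw [h])
      rcases lt_or_gt_of_ne hyy with hlt | hlt
      · refine ⟨(x, y, y'), ?_, ?_⟩
        · simp only [mem_product, mem_offDiag, mem_range]
          exact ⟨hpM.1, hpM.2, hpM'.2, hyy⟩
        · simp only [hlt, if_true]
          intro c hc
          simp only [mem_insert, mem_singleton] at hc
          rcases hc with rfl | rfl
          · exact hp
          · exact hp'
      · refine ⟨(x, y', y), ?_, ?_⟩
        · simp only [mem_product, mem_offDiag, mem_range]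
          exact ⟨hpM.1, hpM'.2, hpM.2, hyy.symm⟩
        · simp only [hlt, if_true]
          intro c hc
          simp only [mem_insert, mem_singleton] at hc
          rcases hc with rfl | rfl
          · exact hp'
          · exact hp
    · subst h1
      have hxx : x ≠ x' := fun h => hne (by rw [h])
      rcases lt_or_gt_of_ne hxx with hlt | hlt
      · refine ⟨(y, x', x), ?_, ?_⟩
        · simp only [mem_product, mem_offDiag, mem_range]
          exact ⟨hpM.2, hpM'.1, hpM.1, hxx.symm⟩
        · simp only [not_lt.2 hlt.le, if_false]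
          intro c hc
          simp only [mem_insert, mem_singleton] at hc
          rcases hc with rfl | rfl
          · exact hp'
          · exact hp
      · refine ⟨(y, x, x'), ?_, ?_⟩
        · simp only [mem_product, mem_offDiag, mem_range]
          exact ⟨hpM.2, hpM.1, hpM'.1, hxx⟩
        · simp only [not_lt.2 hlt.le, if_false]
          intro c hc
          simp only [mem_insert, mem_singleton] at hc
          rcases hc with rfl | rfl
          · exact hp
          · exact hp'

theorem variance (q : ℝ) (M : ℕ) :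
    ∑ ω ∈ (grid M).powerset, q ^ ω.card * (1 - q) ^ (M ^ 2 - ω.card) *
      ((M : ℝ) ^ 2 * q - ω.card) ^ 2 = (M : ℝ) ^ 2 * q * (1 - q) := by
  have h1 := Finset.sum_powerset_apply_card (fun m : ℕ => q ^ m * (1 - q) ^ (M ^ 2 - m) *
      ((M : ℝ) ^ 2 * q - m) ^ 2) (x := grid M)
  rw [h1, card_grid]
  have h2 := congrArg (Polynomial.eval q) (bernsteinPolynomial.variance ℝ (M ^ 2))
  rw [Polynomial.eval_finsetSum] at h2
  have h3 : Polynomial.eval q ((M ^ 2) • Polynomial.X * (1 - Polynomial.X) : Polynomial ℝ) =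
      (M : ℝ) ^ 2 * q * (1 - q) := by
    simp
  rw [h3] at h2
  rw [← h2]
  refine Finset.sum_congr rfl fun m _ => ?_
  simp only [bernsteinPolynomial, nsmul_eq_mul]
  simp only [Polynomial.eval_mul, Polynomial.eval_pow, Polynomial.eval_sub, Polynomial.eval_X,
    Polynomial.eval_natCast, Polynomial.eval_one]
  push_cast
  ring

theorem tail (q : ℝ) (hq0 : 0 < q) (hq1 : q < 1) (M n0 : ℕ) (hM : 0 < M) (θ : ℝ) (hθ : 0 < θ)
    (hn : (n0 : ℝ) ≤ (1 - θ) * (M ^ 2 * q)) :
    Pr q M (fun ω => ω.card < n0) ≤ 1 / (θ ^ 2 * (M ^ 2 * q)) := by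
  have hMR : (0 : ℝ) < M := by exact_mod_cast hM
  have hN : 0 < (M : ℝ) ^ 2 * q := by positivity
  set A : ℝ := θ * ((M : ℝ) ^ 2 * q) with hA
  have hApos : 0 < A := by positivity
  have h1 : Pr q M (fun ω => ω.card < n0) ≤ ∑ ω ∈ (grid M).powerset,
      q ^ ω.card * (1 - q) ^ (M ^ 2 - ω.card) * ((M : ℝ) ^ 2 * q - ω.card) ^ 2 / A ^ 2 := by
    unfold Pr
    rw [Finset.sum_filter]
    refine Finset.sum_le_sum fun ω _ => ?_
    have hw := wt_nonneg hq0.le hq1.le M ω
    split_ifs with hc
    · have hc' : (ω.card : ℝ) < n0 := by exact_mod_cast hc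
      have h2 : A ≤ (M : ℝ) ^ 2 * q - ω.card := by
        rw [hA]
        nlinarith
      have h3 : A ^ 2 ≤ ((M : ℝ) ^ 2 * q - ω.card) ^ 2 := pow_le_pow_left₀ hApos.le h2 2
      rw [mul_div_assoc]
      refine le_mul_of_one_le_right hw ?_
      rw [le_div_iff₀ (by positivity), one_mul]
      exact h3
    · positivity
  refine h1.trans ?_
  rw [← Finset.sum_div, variance, hA]
  rw [div_le_div_iff₀ (by positivity) (by positivity)]
  have h4 : (M : ℝ) ^ 2 * q * (1 - q) ≤ (M : ℝ) ^ 2 * q := by nlinarith
  calc (M : ℝ) ^ 2 * q * (1 - q) * (θ ^ 2 * ((M : ℝ) ^ 2 * q))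
      ≤ (M : ℝ) ^ 2 * q * (θ ^ 2 * ((M : ℝ) ^ 2 * q)) :=
        mul_le_mul_of_nonneg_right h4 (by positivity)
    _ = 1 * (θ * ((M : ℝ) ^ 2 * q)) ^ 2 := by ring

end Pool.Agent.H27.AL
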